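import Pool.Agent.H75.RW.Targets

/-!
# Row CHB of rwd_modules: the length at the level `i`
-/

set_option autoImplicit false

namespace Pool.Agent.H84.RW

open List Pool.Agent.H68.TG Pool.Agent.H75.RW

theorem pf_CHB (hCHM : T_CHM) (hFIR : T_FIR) (hSEC : T_SEC) : T_CHB := by
  intro t m n i s a ha hi hm hn
  have e0 : ma (img 0) = 2 := rfl
  have e1 : ma (img 1) = 1 := rfl
  have e2 : ma (img 2) = 3 := rfl
  have h1 : ∑ σ, ∑ c, ml (t + 2) i σ c = 3 * 2 ^ (t + 2) * 2 := by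
    rw [Finset.sum_comm, Fin.sum_univ_three]
    unfold ml
    rw [hFIR _ _ _ hi, hFIR _ _ _ hi, hFIR _ _ _ hi, e0, e1, e2]
    push_cast
    ring
  have h2 : ∑ σ, ∑ c, ml (t + 2) i σ c ^ 2 ≤ 38 * (2 ^ (t + 2) * (5 / 4) ^ i) := by
    rw [Finset.sum_comm, Fin.sum_univ_three]
    unfold ml
    have s0 := hSEC (t + 2) i (img 0) hi
    have s1 := hSEC (t + 2) i (img 1) hi
    have s2 := hSEC (t + 2) i (img 2) hi
    rw [e0] at s0
    rw [e1] at s1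
    rw [e2] at s2
    push_cast at s0 s1 s2
    nlinarith
  have h3 := hCHM t m n s (ml (t + 2) i) 2 a ha hm hn h1
  have h4 : (fun x => ind (a ≤
      |(ma (mo (t + 2) i (W x) (cs (t + 2) s (W x))) : ℝ) - 2 * ((m : ℝ) + n)|)) =
      (fun x => ind (a ≤ |SS (t + 2) (ml (t + 2) i) (cs (t + 2) s (W x)) x -
        ((m : ℝ) + n) * 2|)) := by
    funext x
    rw [ma_mo, mul_comm (2 : ℝ)]
  rw [h4]
  refine le_trans h3 ?_
  have hp : (0 : ℝ) < 2 ^ (t + 2) := by positivity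
  rw [div_le_div_iff₀ (by positivity) (by positivity)]
  have h5 : 160000 * (9 / 2 : ℝ) ^ (t + 2) * (m + n) * (∑ σ, ∑ c, ml (t + 2) i σ c ^ 2) * a ^ 2 ≤
      160000 * (9 / 2 : ℝ) ^ (t + 2) * (m + n) * (38 * (2 ^ (t + 2) * (5 / 4) ^ i)) * a ^ 2 := by
    gcongr
  refine le_trans h5 ?_
  have e3 : 160000 * (9 / 2 : ℝ) ^ (t + 2) * (m + n) * (38 * (2 ^ (t + 2) * (5 / 4) ^ i)) * a ^ 2 =
      6080000 * ((9 / 2 : ℝ) ^ (t + 2) * (m + n) * (2 ^ (t + 2) * (5 / 4) ^ i) * a ^ 2) := by ring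
  have e4 : 10 ^ 7 * (9 / 2 : ℝ) ^ (t + 2) * (5 / 4) ^ i * (m + n) * (2 ^ (t + 2) * a ^ 2) =
      10000000 * ((9 / 2 : ℝ) ^ (t + 2) * (m + n) * (2 ^ (t + 2) * (5 / 4) ^ i) * a ^ 2) := by ring
  rw [e3, e4]
  exact mul_le_mul_of_nonneg_right (by norm_num) (by positivity)

end Pool.Agent.H84.RW
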