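import Pool.Agent.H75.RW.Targets

/-!
# Row CIA of rwd_modules: the vector at the start
-/

set_option autoImplicit false

namespace Pool.Agent.H84.RW

open List Pool.Agent.H68.TG Pool.Agent.H75.RW

private theorem avg_mulr (n : ℕ) (c : ℝ) (F : List (Fin 3) → ℝ) :
    avg n (fun x => F x * c) = avg n F * c := by
  rw [mul_comm, ← avg_mul]
  congr 1
  funext x
  ring

theorem pf_CIA (hKER : T_KER) (hBKC : T_BKC) : T_CIA := by
  intro t m n s H hH hn
  have hp : (0 : ℝ) < 2 ^ (t + 2) := by positivity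
  have hfix : ∀ y z : List (Fin 3), H (cs (t + 2) s (W (y ++ z))) y ≤
      ∑ σ, ind (bk (t + 2) s (ms (t + 2) (W z) (ms (t + 2) (W y) σ)) = σ) * H σ y := by
    intro y z
    have h1 : bk (t + 2) s (ms (t + 2) (W z) (ms (t + 2) (W y) (cs (t + 2) s (W (y ++ z))))) = cs (t + 2) s (W (y ++ z)) := by
      rw [← ms_append, ← W_append]
      exact (cs_eq (t + 2) s (W (y ++ z))).symm
    refine le_trans (le_of_eq ?_) (Finset.single_le_sum (f := fun σ =>
      ind (bk (t + 2) s (ms (t + 2) (W z) (ms (t + 2) (W y) σ)) = σ) * H σ y)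
      (fun σ _ => mul_nonneg (ind_nonneg _) (hH _ _)) (Finset.mem_univ (cs (t + 2) s (W (y ++ z)))))
    rw [ind_of _ h1, one_mul]
  have hone : ∀ (y : List (Fin 3)) (σ : V (t + 2)),
      avg n (fun z => ind (bk (t + 2) s (ms (t + 2) (W z) (ms (t + 2) (W y) σ)) = σ)) ≤ 6 / 2 ^ (t + 2) := by
    intro y σ
    have h2 : ∀ z : List (Fin 3), ind (bk (t + 2) s (ms (t + 2) (W z) (ms (t + 2) (W y) σ)) = σ) ≤
        ∑ f ∈ Finset.univ.filter (fun f : V (t + 2) => bk (t + 2) s f = σ),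
          ind (ms (t + 2) (W z) (ms (t + 2) (W y) σ) = f) := by
      intro z
      by_cases h : bk (t + 2) s (ms (t + 2) (W z) (ms (t + 2) (W y) σ)) = σ
      · rw [ind_of _ h]
        refine le_trans (le_of_eq ?_) (Finset.single_le_sum (f := fun f =>
          ind (ms (t + 2) (W z) (ms (t + 2) (W y) σ) = f)) (fun f _ => ind_nonneg _)
          (Finset.mem_filter.2 ⟨Finset.mem_univ _, h⟩))
        exact (ind_of _ rfl).symm
      · rw [ind_not _ h]
        exact Finset.sum_nonneg (fun f _ => ind_nonneg _)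
    refine le_trans (avg_mono n _ _ (fun z _ => h2 z)) ?_
    rw [avg_sum]
    refine le_trans (Finset.sum_le_sum (fun f _ => hKER t n (ms (t + 2) (W y) σ) f hn)) ?_
    rw [Finset.sum_const, nsmul_eq_mul]
    have h3 : (((Finset.univ.filter fun f : V (t + 2) => bk (t + 2) s f = σ).card : ℕ) : ℝ) ≤ 2 := by
      exact_mod_cast hBKC (t + 2) s σ
    calc (((Finset.univ.filter fun f : V (t + 2) => bk (t + 2) s f = σ).card : ℕ) : ℝ) * (3 / 2 ^ (t + 2))
        ≤ 2 * (3 / 2 ^ (t + 2)) := mul_le_mul_of_nonneg_right h3 (by positivity)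
      _ = 6 / 2 ^ (t + 2) := by ring
  have hy : ∀ y : List (Fin 3), avg n (fun z => H (cs (t + 2) s (W (y ++ z))) y) ≤
      ∑ σ, 6 / 2 ^ (t + 2) * H σ y := by
    intro y
    refine le_trans (avg_mono n _ _ (fun z _ => hfix y z)) ?_
    rw [avg_sum]
    refine Finset.sum_le_sum (fun σ _ => ?_)
    rw [avg_mulr]
    exact mul_le_mul_of_nonneg_right (hone y σ) (hH _ _)
  refine le_trans (avg_mono m _ _ (fun y _ => hy y)) (le_of_eq ?_)
  rw [avg_sum, Finset.mul_sum]
  refine Finset.sum_congr rfl (fun σ _ => ?_)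
  rw [avg_mul]

end Pool.Agent.H84.RW
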