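import Pool.Agent.H75.RW.Targets

/-!
# Row CIB of rwd_modules: the vector in the middle
-/

set_option autoImplicit false

namespace Pool.Agent.H84.RW

open List Pool.Agent.H68.TG Pool.Agent.H75.RW

private theorem avg_mulr (n : ℕ) (c : ℝ) (F : List (Fin 3) → ℝ) :
    avg n (fun x => F x * c) = avg n F * c := by
  rw [mul_comm, ← avg_mul]
  congr 1
  funext x
  ring

theorem pf_CIB (hKER : T_KER) : T_CIB := by
  intro t m n s H hH hm
  have hp : (0 : ℝ) < 2 ^ (t + 2) := by positivity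
  rw [avg_comm]
  have hfix : ∀ y z : List (Fin 3), H (ms (t + 2) (W y) (cs (t + 2) s (W (y ++ z)))) z ≤
      ∑ σ, ind (ms (t + 2) (W y) (bk (t + 2) s (ms (t + 2) (W z) σ)) = σ) * H σ z := by
    intro y z
    have h1 : ms (t + 2) (W y) (bk (t + 2) s (ms (t + 2) (W z) (ms (t + 2) (W y) (cs (t + 2) s (W (y ++ z)))))) =
        ms (t + 2) (W y) (cs (t + 2) s (W (y ++ z))) := by
      congr 1
      rw [← ms_append, ← W_append]
      exact (cs_eq (t + 2) s (W (y ++ z))).symm
    refine le_trans (le_of_eq ?_) (Finset.single_le_sum (f := fun σ =>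
      ind (ms (t + 2) (W y) (bk (t + 2) s (ms (t + 2) (W z) σ)) = σ) * H σ z)
      (fun σ _ => mul_nonneg (ind_nonneg _) (hH _ _))
      (Finset.mem_univ (ms (t + 2) (W y) (cs (t + 2) s (W (y ++ z))))))
    rw [ind_of _ h1, one_mul]
  have hz : ∀ z : List (Fin 3), avg m (fun y => H (ms (t + 2) (W y) (cs (t + 2) s (W (y ++ z)))) z) ≤
      ∑ σ, 3 / 2 ^ (t + 2) * H σ z := by
    intro z
    refine le_trans (avg_mono m _ _ (fun y _ => hfix y z)) ?_
    rw [avg_sum]
    refine Finset.sum_le_sum (fun σ _ => ?_)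
    rw [avg_mulr]
    exact mul_le_mul_of_nonneg_right (hKER t m (bk (t + 2) s (ms (t + 2) (W z) σ)) σ hm) (hH _ _)
  refine le_trans (avg_mono n _ _ (fun z _ => hz z)) (le_of_eq ?_)
  rw [avg_sum, Finset.mul_sum]
  refine Finset.sum_congr rfl (fun σ _ => ?_)
  rw [avg_mul]

end Pool.Agent.H84.RW
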