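import Pool.Agent.H75.RW.Targets

/-!
# Row ITC of rwd_modules: many letters contract
-/

set_option autoImplicit false

namespace Pool.Agent.H84.RW

open List Pool.Agent.H68.TG Pool.Agent.H75.RW

private theorem sumP (t : ℕ) (f : V t → ℝ) : ∑ σ, P t f σ = ∑ σ, f σ := by
  unfold P
  rw [← Finset.sum_div, Finset.sum_add_distrib, Finset.sum_add_distrib, sum_ms, sum_ms, sum_ms]
  ring

private theorem chiP (hCHI : T_CHI) (t : ℕ) (f : V (t + 2) → ℝ) :
    ∑ σ, chi t σ * P (t + 2) f σ = - ∑ σ, chi t σ * f σ := by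
  have h : ∀ c : Fin 3, ∑ σ, chi t σ * f (ms (t + 2) (img c) σ) = - ∑ σ, chi t σ * f σ := by
    intro c
    rw [← sum_ms (t + 2) (img c) (fun σ => chi t σ * f σ), ← Finset.sum_neg_distrib]
    refine Finset.sum_congr rfl (fun σ _ => ?_)
    rw [(hCHI t).2.2.2.2 c σ]
    ring
  unfold P
  have e : ∀ σ : V (t + 2), chi t σ * ((f (ms (t + 2) (img 0) σ) + f (ms (t + 2) (img 1) σ) +
      f (ms (t + 2) (img 2) σ)) / 3) = (chi t σ * f (ms (t + 2) (img 0) σ) +
      chi t σ * f (ms (t + 2) (img 1) σ) + chi t σ * f (ms (t + 2) (img 2) σ)) / 3 := by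
    intro σ
    ring
  rw [Finset.sum_congr rfl (fun σ _ => e σ), ← Finset.sum_div, Finset.sum_add_distrib,
    Finset.sum_add_distrib, h 0, h 1, h 2]
  ring

private theorem sqP (t : ℕ) (f : V t → ℝ) : ∑ σ, P t f σ ^ 2 ≤ ∑ σ, f σ ^ 2 := by
  have h1 : ∀ σ : V t, P t f σ ^ 2 ≤ (f (ms t (img 0) σ) ^ 2 + f (ms t (img 1) σ) ^ 2 +
      f (ms t (img 2) σ) ^ 2) / 3 := by
    intro σ
    unfold P
    nlinarith [sq_nonneg (f (ms t (img 0) σ) - f (ms t (img 1) σ)),
      sq_nonneg (f (ms t (img 1) σ) - f (ms t (img 2) σ)),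
      sq_nonneg (f (ms t (img 0) σ) - f (ms t (img 2) σ))]
  refine le_trans (Finset.sum_le_sum (fun σ _ => h1 σ)) (le_of_eq ?_)
  rw [← Finset.sum_div, Finset.sum_add_distrib, Finset.sum_add_distrib,
    sum_ms t (img 0) (fun σ => f σ ^ 2), sum_ms t (img 1) (fun σ => f σ ^ 2),
    sum_ms t (img 2) (fun σ => f σ ^ 2)]
  ring

private theorem rho_nonneg (t : ℕ) : 0 ≤ rho t := by
  unfold rho
  have h1 : (1 : ℝ) ≤ (9 / 2 : ℝ) ^ (t + 2) := one_le_pow₀ (by norm_num)
  have h2 : 1 / (1620 * (9 / 2 : ℝ) ^ (t + 2)) ≤ 1 := by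
    rw [div_le_one (by positivity)]
    linarith
  linarith

theorem pf_ITC (hCON : T_CON) (hCHI : T_CHI) : T_ITC := by
  intro t n f hf hchi
  have key : ∀ n, (∑ σ, ((P (t + 2))^[n] f) σ = 0 ∧ ∑ σ, chi t σ * ((P (t + 2))^[n] f) σ = 0) := by
    intro n
    induction n with
    | zero => exact ⟨hf, hchi⟩
    | succ n ih =>
      rw [Function.iterate_succ_apply']
      refine ⟨?_, ?_⟩
      · rw [sumP]
        exact ih.1
      · rw [chiP hCHI, ih.2, neg_zero]
  induction n using Nat.strong_induction_on with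
  | _ n ih =>
    match n with
    | 0 => simp
    | 1 =>
      have : 1 / 2 = 0 := rfl
      rw [this, pow_zero, one_mul, Function.iterate_one]
      exact sqP _ f
    | n + 2 =>
      have h1 : (P (t + 2))^[n + 2] f = P (t + 2) (P (t + 2) ((P (t + 2))^[n] f)) := by
        rw [Function.iterate_succ_apply', Function.iterate_succ_apply']
      have h2 : (n + 2) / 2 = n / 2 + 1 := by omega
      rw [h1, h2, pow_succ']
      have h3 := hCON t ((P (t + 2))^[n] f) (key n).1 (key n).2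
      have h4 := ih n (by omega)
      refine le_trans h3 (le_trans (mul_le_mul_of_nonneg_left h4 (rho_nonneg t)) (le_of_eq ?_))
      ring

end Pool.Agent.H84.RW
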