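import Pool.Agent.H75.RW.Targets

/-!
# Row PSI of rwd_modules: the blocks shrink
-/

set_option autoImplicit false

namespace Pool.Agent.H84.RW

open List Pool.Agent.H68.TG Pool.Agent.H75.RW

private theorem sqrt3 : Real.sqrt 3 ≤ 1.7321 := by
  rw [Real.sqrt_le_left (by norm_num)]
  norm_num

private theorem step_psi (q : Bool × ℕ) : psi (nb false q) + psi (nb true q) ≤
    2 * (59 / 60) * psi q := by
  obtain ⟨c, x⟩ := q
  cases c
  · have e1 : psi (nb false (false, x)) = 1.39 * Real.sqrt ((x + 1) / 2 : ℕ) := rfl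
    have e2 : psi (nb true (false, x)) = 1.39 * Real.sqrt (x / 2 : ℕ) := rfl
    have e3 : psi (false, x) = 1 * Real.sqrt x := rfl
    rw [e1, e2, e3, one_mul]
    have hab : (((x + 1) / 2 : ℕ) : ℝ) + ((x / 2 : ℕ) : ℝ) = x := by
      have : (x + 1) / 2 + x / 2 = x := by omega
      exact_mod_cast this
    have ha := Real.sq_sqrt (Nat.cast_nonneg (α := ℝ) ((x + 1) / 2))
    have hb := Real.sq_sqrt (Nat.cast_nonneg (α := ℝ) (x / 2))
    have hx := Real.sq_sqrt (Nat.cast_nonneg (α := ℝ) x)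
    have ha0 := Real.sqrt_nonneg (((x + 1) / 2 : ℕ) : ℝ)
    have hb0 := Real.sqrt_nonneg ((x / 2 : ℕ) : ℝ)
    have hx0 := Real.sqrt_nonneg (x : ℝ)
    have h1 : (1.39 * (Real.sqrt ((x + 1) / 2 : ℕ) + Real.sqrt (x / 2 : ℕ))) ^ 2 ≤
        (2 * (59 / 60) * Real.sqrt x) ^ 2 := by
      nlinarith [sq_nonneg (Real.sqrt ((x + 1) / 2 : ℕ) - Real.sqrt (x / 2 : ℕ))]
    have h2 := abs_le_of_sq_le_sq h1 (by positivity)
    have h3 := le_of_abs_le h2
    linarith
  · have e1 : psi (nb false (true, x)) = 1 * Real.sqrt (x : ℕ) := rfl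
    have e2 : psi (nb true (true, x)) = 1 * Real.sqrt (3 * x : ℕ) := rfl
    have e3 : psi (true, x) = 1.39 * Real.sqrt x := rfl
    rw [e1, e2, e3, one_mul, one_mul]
    push_cast
    rw [Real.sqrt_mul (by norm_num)]
    have hx0 := Real.sqrt_nonneg (x : ℝ)
    have h1 := mul_le_mul_of_nonneg_right sqrt3 hx0
    linarith

theorem pf_PSI : T_PSI := by
  intro T
  induction T with
  | zero =>
    intro i q hi
    have hi0 : i = 0 := by omega
    subst hi0
    have e : ∀ σ : V 0, psi (xo 0 0 q σ) = psi q := fun σ => rfl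
    rw [Finset.sum_congr rfl (fun σ _ => e σ), Finset.sum_const, Finset.card_univ, cardV]
    simp
  | succ T ih =>
    intro i q hi
    cases i with
    | zero =>
      have e : ∀ σ : V (T + 1), psi (xo (T + 1) 0 q σ) = psi q := fun σ => rfl
      rw [Finset.sum_congr rfl (fun σ _ => e σ), Finset.sum_const, Finset.card_univ, cardV]
      simp
    | succ i =>
      rw [sumV]
      have e1 : ∀ ρ : V T, psi (xo (T + 1) (i + 1) q (false, ρ)) =
          psi (xo T i (nb false q) ρ) := fun ρ => rfl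
      have e2 : ∀ ρ : V T, psi (xo (T + 1) (i + 1) q (true, ρ)) =
          psi (xo T i (nb true q) ρ) := fun ρ => rfl
      rw [Finset.sum_congr rfl (fun ρ _ => e1 ρ), Finset.sum_congr rfl (fun ρ _ => e2 ρ)]
      have h1 := ih i (nb false q) (by omega)
      have h2 := ih i (nb true q) (by omega)
      have h3 := step_psi q
      have h4 : (0 : ℝ) ≤ 2 ^ T * (59 / 60) ^ i := by positivity
      have h5 := mul_le_mul_of_nonneg_left h3 h4
      have e3 : (2 : ℝ) ^ (T + 1) * (59 / 60) ^ (i + 1) * psi q =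
          2 ^ T * (59 / 60) ^ i * (2 * (59 / 60) * psi q) := by ring
      rw [e3]
      linarith

end Pool.Agent.H84.RW
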