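import Pool.Agent.H75.RW.Targets

/-!
# Row SRV of rwd_modules: the number of survivors at the level `i`
-/

set_option autoImplicit false

namespace Pool.Agent.H84.RW

open List Pool.Agent.H68.TG Pool.Agent.H75.RW

theorem pf_SRV (hCHM : T_CHM) (hSVM : T_SVM) : T_SRV := by
  intro t m n i s a ha hi hm hn
  have hp : (0 : ℝ) < 2 ^ (t + 2) := by positivity
  set S : ℝ := ∑ σ, ∑ c, sv (t + 2) i σ c with hS
  have hS1 : S ≤ 3 * 2 ^ (t + 2) * (1.38 * (59 / 60) ^ i) := hSVM (t + 2) i hi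
  have hsq : ∑ σ, ∑ c, sv (t + 2) i σ c ^ 2 = S := by
    rw [hS]
    refine Finset.sum_congr rfl (fun σ _ => Finset.sum_congr rfl (fun c _ => ?_))
    unfold sv
    split_ifs <;> norm_num
  have h59 : (59 / 60 : ℝ) ^ i ≤ 1 := pow_le_one₀ (by norm_num) (by norm_num)
  have h590 : (0 : ℝ) ≤ (59 / 60 : ℝ) ^ i := by positivity
  have hS2 : S ≤ 4.14 * 2 ^ (t + 2) := by nlinarith
  have h3 := hCHM t m n s (sv (t + 2) i) (S / (3 * 2 ^ (t + 2))) a ha hm hn (by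
    rw [← hS]
    field_simp)
  rw [hsq] at h3
  have hM : S / (3 * 2 ^ (t + 2)) ≤ 1.38 * (59 / 60) ^ i := by
    rw [div_le_iff₀ (by positivity)]
    linarith
  refine le_trans (avg_mono (m + n) _ _ (fun x _ => ind_mono _ _ (fun hx => ?_))) (le_trans h3 ?_)
  · have h4 : ((m : ℝ) + n) * (S / (3 * 2 ^ (t + 2))) ≤
        ((m : ℝ) + n) * (1.38 * (59 / 60) ^ i) :=
      mul_le_mul_of_nonneg_left hM (by positivity)
    refine le_trans ?_ (le_abs_self _)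
    linarith
  · have h5 : 160000 * (9 / 2 : ℝ) ^ (t + 2) * (m + n) * S / (2 ^ (t + 2) * a ^ 2) ≤
        160000 * (9 / 2 : ℝ) ^ (t + 2) * (m + n) * (4.14 * 2 ^ (t + 2)) /
          (2 ^ (t + 2) * a ^ 2) := by
      gcongr
    refine le_trans h5 ?_
    have h54 : (1 : ℝ) ≤ (5 / 4 : ℝ) ^ i := one_le_pow₀ (by norm_num)
    rw [div_le_div_iff₀ (by positivity) (by positivity)]
    have e4 : 160000 * (9 / 2 : ℝ) ^ (t + 2) * (m + n) * (4.14 * 2 ^ (t + 2)) * a ^ 2 =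
        662400 * ((9 / 2 : ℝ) ^ (t + 2) * (m + n) * (2 ^ (t + 2) * a ^ 2)) := by ring
    have e5 : 10 ^ 7 * (9 / 2 : ℝ) ^ (t + 2) * (5 / 4) ^ i * (m + n) * (2 ^ (t + 2) * a ^ 2) =
        (10000000 * (5 / 4) ^ i) * ((9 / 2 : ℝ) ^ (t + 2) * (m + n) * (2 ^ (t + 2) * a ^ 2)) := by
      ring
    rw [e4, e5]
    exact mul_le_mul_of_nonneg_right (by linarith) (by positivity)

end Pool.Agent.H84.RW
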