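import Pool.Agent.H75.RW.Targets

/-!
# Row SVM of rwd_modules: the mean number of survivors
-/

set_option autoImplicit false

namespace Pool.Agent.H84.RW

open List Pool.Agent.H68.TG Pool.Agent.H75.RW

private theorem sv_le (hXOH : T_XOH) (T i : ℕ) (σ : V T) (c : Fin 3) (q : Bool × ℕ)
    (hq : img c = replicate q.2 q.1) : sv T i σ c ≤ psi (xo T i q σ) := by
  have h := hXOH T i q σ
  unfold sv
  rw [hq, h]
  have h0 : 0 ≤ psi (xo T i q σ) := by
    unfold psi
    have := Real.sqrt_nonneg ((xo T i q σ).2 : ℝ)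
    split_ifs <;> positivity
  split_ifs with h1
  · exact h0
  · have h2 : (xo T i q σ).2 ≠ 0 := by
      intro h3
      rw [h3] at h1
      exact h1 rfl
    have h3 : (1 : ℝ) ≤ ((xo T i q σ).2 : ℝ) := by exact_mod_cast Nat.one_le_iff_ne_zero.2 h2
    have h4 : (1 : ℝ) ≤ Real.sqrt ((xo T i q σ).2 : ℝ) := by
      rw [← Real.sqrt_one]
      exact Real.sqrt_le_sqrt h3
    unfold psi
    split_ifs
    · linarith
    · linarith

theorem pf_SVM (hXOH : T_XOH) (hPSI : T_PSI) : T_SVM := by
  intro T i hi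
  have h0 := fun σ => sv_le hXOH T i σ 0 (true, 1) rfl
  have h1 := fun σ => sv_le hXOH T i σ 1 (false, 1) rfl
  have h2 := fun σ => sv_le hXOH T i σ 2 (false, 3) rfl
  have hs : ∑ σ, ∑ c, sv T i σ c ≤ ∑ σ, (psi (xo T i (true, 1) σ) + psi (xo T i (false, 1) σ) +
      psi (xo T i (false, 3) σ)) := by
    refine Finset.sum_le_sum (fun σ _ => ?_)
    rw [Fin.sum_univ_three]
    have := h0 σ
    have := h1 σ
    have := h2 σ
    linarith
  refine le_trans hs ?_
  rw [Finset.sum_add_distrib, Finset.sum_add_distrib]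
  have p0 := hPSI T i (true, 1) hi
  have p1 := hPSI T i (false, 1) hi
  have p2 := hPSI T i (false, 3) hi
  have e0 : psi (true, 1) = 1.39 := by
    unfold psi
    simp
  have e1 : psi (false, 1) = 1 := by
    unfold psi
    simp
  have e2 : psi (false, 3) ≤ 1.7321 := by
    unfold psi
    simp only [Bool.false_eq_true, if_false, one_mul]
    rw [Real.sqrt_le_left (by norm_num)]
    norm_num
  have hp : (0 : ℝ) ≤ 2 ^ T * (59 / 60) ^ i := by positivity
  have h3 := mul_le_mul_of_nonneg_left e2 hp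
  rw [e0] at p0
  rw [e1] at p1
  nlinarith

end Pool.Agent.H84.RW
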